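import Mathlib
import Pool.Agent.H.MP_d09e6d_nt.A

namespace Pool.Agent.Results.MP_d09e6d_nt.No

open Set

/-- Points of `(0,1)` all of whose continued fraction digits (read off by the Gauss map) lie in `A`. -/
def J (A : Set ℕ) : Set ℝ :=
  {x | x ∈ Ioo (0 : ℝ) 1 ∧ ∀ i, ⌊1 / ((fun y : ℝ => Int.fract (1 / y))^[i] x)⌋₊ ∈ A}

/-- The dimension spectrum. -/
def DS (A : Set ℕ) : Set ℝ :=
  {s | 0 ≤ s ∧ ∃ B ⊆ A, B.Nonempty ∧ dimH (J B) = ENNReal.ofReal s}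

/-- The `q`-th powers of positive integers. -/
def M (q : ℕ) : Set ℕ := {a | ∃ n, 1 ≤ n ∧ a = n ^ q}

theorem result (C : ℕ) : ∃ q0 : ℕ, ∀ q, q0 ≤ q →
    (C : ℕ∞) < ENat.card (ConnectedComponents (DS (M q))) :=
  Pool.Agent.H.MP_d09e6d_nt.main C

end Pool.Agent.Results.MP_d09e6d_nt.No
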